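import Pool.Agent.Helper99.DF.St

/-!
# Project DF (MP_d49380), module PR8: the monomial and vanishing checks are primitive recursive
-/

set_option autoImplicit false

namespace Pool.Agent.Helper42.DF

open Pool.Agent.Helper99.DF
open Pool.Agent.Helper4.IL (primrec_int_sub primrec_int_mul primrec_int_toNat primrec_int_ofNat)

private theorem all_mem {α β : Type} [Primcodable α] [Primcodable β] {f : α → List β}
    {R : α → β → Prop} (hf : Primrec f) (hR : PrimrecPred fun p : α × β => R p.1 p.2) :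
    PrimrecPred fun a => ∀ b ∈ f a, R a b := by
  have h1 : PrimrecRel fun (b : β) (a : α) => R a b :=
    hR.comp (Primrec.pair Primrec.snd Primrec.fst)
  exact h1.forall_mem_list.comp hf Primrec.id

private theorem int_le : PrimrecRel fun a b : ℤ => a ≤ b := by
  have h : PrimrecPred fun p : ℤ × ℤ => (p.1 - p.2).toNat = 0 :=
    Primrec.eq.comp (primrec_int_toNat.comp (primrec_int_sub.comp Primrec.fst Primrec.snd))
      (Primrec.const 0)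
  refine PrimrecPred.of_eq h fun p => ?_
  omega

private theorem p_ex : Primrec₂ ex := Primrec.list_getD 0

/-- exponents at most `N` -/
private theorem p_le : PrimrecPred fun q : List ℕ × List ℕ × ℕ => ∀ k ∈ q.1, ex q.2.1 k ≤ q.2.2 := by
  refine all_mem (R := fun (q : List ℕ × List ℕ × ℕ) k => ex q.2.1 k ≤ q.2.2) Primrec.fst ?_
  exact Primrec.nat_le.comp
    (p_ex.comp (Primrec.fst.comp (Primrec.snd.comp Primrec.fst)) Primrec.snd)
    (Primrec.snd.comp (Primrec.snd.comp Primrec.fst))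

/-- equal exponents -/
private theorem p_eq : PrimrecPred fun q : List ℕ × List ℕ × List ℕ =>
    ∀ k ∈ q.1, ex q.2.1 k = ex q.2.2 k := by
  refine all_mem (R := fun (q : List ℕ × List ℕ × List ℕ) k => ex q.2.1 k = ex q.2.2 k)
    Primrec.fst ?_
  exact Primrec.eq.comp
    (p_ex.comp (Primrec.fst.comp (Primrec.snd.comp Primrec.fst)) Primrec.snd)
    (p_ex.comp (Primrec.snd.comp (Primrec.snd.comp Primrec.fst)) Primrec.snd)

/-- the monomial inequality -/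
private theorem p_mon (h2 : StPR2) :
    PrimrecPred fun q : (List ℤ × (ℕ × ℕ × ℕ) × List ℕ) × (List ℕ × List ℕ) =>
      (q.1.2.1.1 : ℤ) * mon q.1.2.2 q.1.2.1.2.2 q.2.1 (sq q.1.1) ≤
        q.1.2.1.2.1 * mon q.1.2.2 q.1.2.1.2.2 q.2.2 (sq q.1.1) := by
  have hl : Primrec fun q : (List ℤ × (ℕ × ℕ × ℕ) × List ℕ) × (List ℕ × List ℕ) => q.1.1 :=
    Primrec.fst.comp Primrec.fst
  have hc : Primrec fun q : (List ℤ × (ℕ × ℕ × ℕ) × List ℕ) × (List ℕ × List ℕ) => q.1.2.1 :=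
    Primrec.fst.comp (Primrec.snd.comp Primrec.fst)
  have hZ : Primrec fun q : (List ℤ × (ℕ × ℕ × ℕ) × List ℕ) × (List ℕ × List ℕ) => q.1.2.2 :=
    Primrec.snd.comp (Primrec.snd.comp Primrec.fst)
  have hD : Primrec fun q : (List ℤ × (ℕ × ℕ × ℕ) × List ℕ) × (List ℕ × List ℕ) => q.1.2.1.1 :=
    Primrec.fst.comp hc
  have he : Primrec fun q : (List ℤ × (ℕ × ℕ × ℕ) × List ℕ) × (List ℕ × List ℕ) => q.1.2.1.2.1 :=
    Primrec.fst.comp (Primrec.snd.comp hc)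
  have hN : Primrec fun q : (List ℤ × (ℕ × ℕ × ℕ) × List ℕ) × (List ℕ × List ℕ) => q.1.2.1.2.2 :=
    Primrec.snd.comp (Primrec.snd.comp hc)
  have h21 : Primrec fun q : (List ℤ × (ℕ × ℕ × ℕ) × List ℕ) × (List ℕ × List ℕ) => q.2.1 :=
    Primrec.fst.comp Primrec.snd
  have h22 : Primrec fun q : (List ℤ × (ℕ × ℕ × ℕ) × List ℕ) × (List ℕ × List ℕ) => q.2.2 :=
    Primrec.snd.comp Primrec.snd
  have h2' : Primrec (fun q : (List ℕ × ℕ) × (List ℕ × List ℤ) =>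
      (mon q.1.1 q.1.2 q.2.1 (sq q.2.2) : ℤ)) := h2
  have m1 : Primrec fun q : (List ℤ × (ℕ × ℕ × ℕ) × List ℕ) × (List ℕ × List ℕ) =>
      (mon q.1.2.2 q.1.2.1.2.2 q.2.1 (sq q.1.1) : ℤ) := by
    have h := h2'.comp (Primrec.pair (Primrec.pair hZ hN) (Primrec.pair h21 hl))
    exact h
  have m2 : Primrec fun q : (List ℤ × (ℕ × ℕ × ℕ) × List ℕ) × (List ℕ × List ℕ) =>
      (mon q.1.2.2 q.1.2.1.2.2 q.2.2 (sq q.1.1) : ℤ) := by
    have h := h2'.comp (Primrec.pair (Primrec.pair hZ hN) (Primrec.pair h22 hl))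
    exact h
  exact int_le.comp (primrec_int_mul.comp (primrec_int_ofNat.comp hD) m1)
    (primrec_int_mul.comp (primrec_int_ofNat.comp he) m2)

/-- the condition on one term -/
private theorem p_term (h2 : StPR2) :
    PrimrecPred fun q : (List ℤ × (ℕ × ℕ × ℕ) × List ℕ) × (Ent × (ℤ × List ℕ)) =>
      (∀ k ∈ q.1.2.2, ex q.2.2.2 k ≤ q.1.2.1.2.2) ∧ ex q.2.2.2 q.2.1.1 ≤ q.1.2.1.2.2 ∧
      ((∀ k ∈ q.1.2.2, ex q.2.2.2 k = ex q.2.1.2.1 k) ∨
        (q.1.2.1.1 : ℤ) * mon q.1.2.2 q.1.2.1.2.2 q.2.2.2 (sq q.1.1) ≤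
          q.1.2.1.2.1 * mon q.1.2.2 q.1.2.1.2.2 q.2.1.2.1 (sq q.1.1)) := by
  have hc : Primrec fun q : (List ℤ × (ℕ × ℕ × ℕ) × List ℕ) × (Ent × (ℤ × List ℕ)) => q.1 :=
    Primrec.fst
  have hZ : Primrec fun q : (List ℤ × (ℕ × ℕ × ℕ) × List ℕ) × (Ent × (ℤ × List ℕ)) => q.1.2.2 :=
    Primrec.snd.comp (Primrec.snd.comp hc)
  have hN : Primrec fun q : (List ℤ × (ℕ × ℕ × ℕ) × List ℕ) × (Ent × (ℤ × List ℕ)) =>
      q.1.2.1.2.2 :=
    Primrec.snd.comp (Primrec.snd.comp (Primrec.fst.comp (Primrec.snd.comp hc)))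
  have he : Primrec fun q : (List ℤ × (ℕ × ℕ × ℕ) × List ℕ) × (Ent × (ℤ × List ℕ)) => q.2.2.2 :=
    Primrec.snd.comp (Primrec.snd.comp Primrec.snd)
  have hi : Primrec fun q : (List ℤ × (ℕ × ℕ × ℕ) × List ℕ) × (Ent × (ℤ × List ℕ)) => q.2.1.1 :=
    Primrec.fst.comp (Primrec.fst.comp Primrec.snd)
  have hg : Primrec fun q : (List ℤ × (ℕ × ℕ × ℕ) × List ℕ) × (Ent × (ℤ × List ℕ)) =>
      q.2.1.2.1 :=
    Primrec.fst.comp (Primrec.snd.comp (Primrec.fst.comp Primrec.snd))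
  refine PrimrecPred.and (p_le.comp (Primrec.pair hZ (Primrec.pair he hN))) (PrimrecPred.and ?_
    (PrimrecPred.or (p_eq.comp (Primrec.pair hZ (Primrec.pair he hg)))
      ((p_mon h2).comp (Primrec.pair hc (Primrec.pair he hg)))))
  exact Primrec.nat_le.comp (p_ex.comp he hi) hN

private theorem p_okR (h2 : StPR2) :
    PrimrecPred fun q : List ℤ × (ℕ × ℕ × ℕ) × List ℕ × List Ent =>
      okR q.1 q.2.1.1 q.2.1.2.1 q.2.1.2.2 q.2.2.1 q.2.2.2 := by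
  unfold okR
  refine all_mem (f := fun q : List ℤ × (ℕ × ℕ × ℕ) × List ℕ × List Ent => q.2.2.2)
    (R := fun (q : List ℤ × (ℕ × ℕ × ℕ) × List ℕ × List Ent) (en : Ent) =>
      (∀ k ∈ q.2.2.1, ex en.2.1 k ≤ q.2.1.2.2) ∧ ∀ ce ∈ en.2.2,
      (∀ k ∈ q.2.2.1, ex ce.2 k ≤ q.2.1.2.2) ∧ ex ce.2 en.1 ≤ q.2.1.2.2 ∧
        ((∀ k ∈ q.2.2.1, ex ce.2 k = ex en.2.1 k) ∨
          (q.2.1.1 : ℤ) * mon q.2.2.1 q.2.1.2.2 ce.2 (sq q.1) ≤
            q.2.1.2.1 * mon q.2.2.1 q.2.1.2.2 en.2.1 (sq q.1)))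
    (Primrec.snd.comp (Primrec.snd.comp Primrec.snd)) ?_
  have hq : Primrec fun p : (List ℤ × (ℕ × ℕ × ℕ) × List ℕ × List Ent) × Ent => p.1 := Primrec.fst
  have hZ : Primrec fun p : (List ℤ × (ℕ × ℕ × ℕ) × List ℕ × List Ent) × Ent => p.1.2.2.1 :=
    Primrec.fst.comp (Primrec.snd.comp (Primrec.snd.comp hq))
  have hc : Primrec fun p : (List ℤ × (ℕ × ℕ × ℕ) × List ℕ × List Ent) × Ent => p.1.2.1 :=
    Primrec.fst.comp (Primrec.snd.comp hq)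
  have hN : Primrec fun p : (List ℤ × (ℕ × ℕ × ℕ) × List ℕ × List Ent) × Ent => p.1.2.1.2.2 :=
    Primrec.snd.comp (Primrec.snd.comp hc)
  have hl : Primrec fun p : (List ℤ × (ℕ × ℕ × ℕ) × List ℕ × List Ent) × Ent => p.1.1 :=
    Primrec.fst.comp hq
  have hg : Primrec fun p : (List ℤ × (ℕ × ℕ × ℕ) × List ℕ × List Ent) × Ent => p.2.2.1 :=
    Primrec.fst.comp (Primrec.snd.comp Primrec.snd)
  refine PrimrecPred.and (p_le.comp (Primrec.pair hZ (Primrec.pair hg hN))) ?_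
  refine all_mem (f := fun p : (List ℤ × (ℕ × ℕ × ℕ) × List ℕ × List Ent) × Ent => p.2.2.2)
    (R := fun (p : (List ℤ × (ℕ × ℕ × ℕ) × List ℕ × List Ent) × Ent) (ce : ℤ × List ℕ) =>
      (∀ k ∈ p.1.2.2.1, ex ce.2 k ≤ p.1.2.1.2.2) ∧ ex ce.2 p.2.1 ≤ p.1.2.1.2.2 ∧
        ((∀ k ∈ p.1.2.2.1, ex ce.2 k = ex p.2.2.1 k) ∨
          (p.1.2.1.1 : ℤ) * mon p.1.2.2.1 p.1.2.1.2.2 ce.2 (sq p.1.1) ≤
            p.1.2.1.2.1 * mon p.1.2.2.1 p.1.2.1.2.2 p.2.2.1 (sq p.1.1)))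
    (Primrec.snd.comp (Primrec.snd.comp Primrec.snd)) ?_
  exact (p_term h2).comp (Primrec.pair
    (Primrec.pair (hl.comp Primrec.fst) (Primrec.pair (hc.comp Primrec.fst) (hZ.comp Primrec.fst)))
    (Primrec.pair (Primrec.snd.comp Primrec.fst) Primrec.snd))

private theorem p_okP (h1 : StPR1) (h3 : StPR3) :
    PrimrecPred fun q : List ℤ × (ℕ × ℕ) × List ℕ × List Ent =>
      okP q.1 q.2.1.1 q.2.1.2 q.2.2.1 q.2.2.2 := by
  unfold okP
  refine all_mem (f := fun q : List ℤ × (ℕ × ℕ) × List ℕ × List Ent => q.2.2.2)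
    (R := fun (q : List ℤ × (ℕ × ℕ) × List ℕ × List Ent) (en : Ent) =>
      ∀ j ∈ List.range (q.2.1.2 + 1), PT (q.2.2.1 ++ [en.1]) q.2.1.1 en.2.2 (sq (TL^[j] q.1)) = 0)
    (Primrec.snd.comp (Primrec.snd.comp Primrec.snd)) ?_
  refine all_mem (f := fun p : (List ℤ × (ℕ × ℕ) × List ℕ × List Ent) × Ent =>
      List.range (p.1.2.1.2 + 1))
    (R := fun (p : (List ℤ × (ℕ × ℕ) × List ℕ × List Ent) × Ent) (j : ℕ) =>
      PT (p.1.2.2.1 ++ [p.2.1]) p.1.2.1.1 p.2.2.2 (sq (TL^[j] p.1.1)) = 0) ?_ ?_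
  · exact Primrec.list_range.comp (Primrec.succ.comp
      (Primrec.snd.comp (Primrec.fst.comp (Primrec.snd.comp Primrec.fst))))
  · have hq : Primrec fun p : ((List ℤ × (ℕ × ℕ) × List ℕ × List Ent) × Ent) × ℕ => p.1.1 :=
      Primrec.fst.comp Primrec.fst
    have hen : Primrec fun p : ((List ℤ × (ℕ × ℕ) × List ℕ × List Ent) × Ent) × ℕ => p.1.2 :=
      Primrec.snd.comp Primrec.fst
    have hZ : Primrec fun p : ((List ℤ × (ℕ × ℕ) × List ℕ × List Ent) × Ent) × ℕ =>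
        p.1.1.2.2.1 := Primrec.fst.comp (Primrec.snd.comp (Primrec.snd.comp hq))
    have hN : Primrec fun p : ((List ℤ × (ℕ × ℕ) × List ℕ × List Ent) × Ent) × ℕ =>
        p.1.1.2.1.1 := Primrec.fst.comp (Primrec.fst.comp (Primrec.snd.comp hq))
    have hs : Primrec fun p : ((List ℤ × (ℕ × ℕ) × List ℕ × List Ent) × Ent) × ℕ =>
        [p.1.2.1] := Primrec.list_cons.comp (Primrec.fst.comp hen) (Primrec.const [])
    have hT : Primrec fun p : ((List ℤ × (ℕ × ℕ) × List ℕ × List Ent) × Ent) × ℕ =>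
        TL^[p.2] p.1.1.1 := Primrec.comp h1 (Primrec.pair Primrec.snd (Primrec.fst.comp hq))
    have hP : Primrec fun p : ((List ℤ × (ℕ × ℕ) × List ℕ × List Ent) × Ent) × ℕ =>
        (PT (p.1.1.2.2.1 ++ [p.1.2.1]) p.1.1.2.1.1 p.1.2.2.2 (sq (TL^[p.2] p.1.1.1)) : ℤ) := by
      have h3' : Primrec (fun q : (List ℕ × ℕ) × (Pol × List ℤ) =>
        (PT q.1.1 q.1.2 q.2.1 (sq q.2.2) : ℤ)) := h3
      have h := h3'.comp (Primrec.pair (Primrec.pair (Primrec.list_append.comp hZ hs) hN)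
        (Primrec.pair (Primrec.snd.comp (Primrec.snd.comp hen)) hT))
      exact h
    exact Primrec.eq.comp hP (Primrec.const 0)

/-- module PR8 -/
theorem hPR8 (h1 : StPR1) (h2 : StPR2) (h3 : StPR3) : StPR8 := ⟨p_okR h2, p_okP h1 h3⟩

end Pool.Agent.Helper42.DF
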