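import Pool.Agent.Helper99.DF.St

/-!
# Project DF (MP_d49380), module TRA: transfer to the operator of the problem
-/

set_option autoImplicit false

namespace Pool.Agent.Helper42.DF

open Pool.Agent.Helper99.DF
open Pool.Agent.Helper4.IL (LC)

private theorem T_zero {b : ℕ → ℤ} (h : b 0 = 0) (t : ℕ) : (T^[t] b) 0 = 0 := by
  induction t with
  | zero => exact h
  | succ t ih =>
    rw [T_succ, ih]
    ring

private theorem LC_succ (a : ℕ → ℚ) (t k : ℕ) : (LC^[t + 1] a) k = (LC^[t] a) k ^ 2 -
    (if k = 0 then 0 else (LC^[t] a) (k - 1)) * (LC^[t] a) (k + 1) := by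
  rw [Function.iterate_succ_apply']
  rfl

private theorem main (b : ℕ → ℤ) (a : ℕ → ℚ) (w M : ℕ) (h0 : b 0 = 0)
    (h : ∀ k, k < M → (b (k + 1) : ℚ) = w * a k) (t : ℕ) : ∀ k, k + t < M →
    (((T^[t] b) (k + 1) : ℤ) : ℚ) = w ^ (2 ^ t) * (LC^[t] a) k := by
  induction t with
  | zero =>
    intro k hk
    have h1 := h k hk
    simpa using h1
  | succ t ih =>
    intro k hk
    rw [T_succ, LC_succ]
    have e1 := ih k (by omega)
    have e2 := ih (k + 1) (by omega)
    have ew : (w : ℚ) ^ (2 ^ (t + 1)) = (w ^ (2 ^ t)) * (w ^ (2 ^ t)) := by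
      rw [pow_succ, pow_mul, pow_two]
    push_cast
    rw [e1, e2, ew]
    cases k with
    | zero =>
      have e3 : (T^[t] b) (0 + 1 - 1) = 0 := T_zero h0 t
      rw [e3, if_pos rfl]
      push_cast
      ring
    | succ j =>
      have e3 := ih j (by omega)
      have e5 : j + 1 - 1 = j := rfl
      rw [e3, if_neg (Nat.succ_ne_zero j), e5]
      ring

/-- module TRA -/
theorem hTRA : StTRA := by
  intro a w l _ h0 h
  constructor
  · intro t k hk
    exact main (sq l) a w (l.length - 1) h0 (fun k hk => h k (by omega)) t k (by omega)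
  · intro hz t k
    refine main (sq l) a w (k + t + 1) h0 (fun j _ => ?_) t k (by omega)
    by_cases hj : j + 1 < l.length
    · exact h j hj
    · rw [sq_ge l (j + 1) (by omega), hz j (by omega)]
      simp

end Pool.Agent.Helper42.DF
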